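import Pool.Agent.X125.CP.Rank

/-!
Comparison of small balls of two measures on the circle.
-/

set_option autoImplicit false

open MeasureTheory Filter Topology Metric
open scoped ENNReal

namespace Pool.Agent.X125.CP

/-- representatives in `[0, 1)` -/
noncomputable def rp (x : T) : ℝ := (AddCircle.measurableEquivIco 1 0 x : ℝ)

lemma rp_meas : Measurable rp := measurable_subtype_coe.comp (AddCircle.measurableEquivIco 1 0).measurable

lemma rp_nonneg (x : T) : 0 ≤ rp x := (AddCircle.measurableEquivIco 1 0 x).2.1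

lemma rp_lt (x : T) : rp x < 1 := by
  have h : ((AddCircle.measurableEquivIco 1 0 x : Set.Ico (0 : ℝ) (0 + 1)) : ℝ) < 0 + 1 :=
    (AddCircle.measurableEquivIco 1 0 x).2.2
  exact h.trans_eq (zero_add 1)

lemma coe_rp (x : T) : ((rp x : ℝ) : T) = x := (AddCircle.equivIco 1 0).symm_apply_apply x

lemma rp_pos {x : T} (hx : x ≠ 0) : 0 < rp x := by
  refine lt_of_le_of_ne (rp_nonneg x) fun h => hx ?_
  rw [← coe_rp x, ← h]
  rfl

/-- balls correspond to intervals -/
lemma pre_ball {x : T} {r : ℝ} (h0 : r < rp x) (h1 : r < 1 - rp x) :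
    rp ⁻¹' closedBall (rp x) r = closedBall x r := by
  ext y
  rw [Set.mem_preimage, mem_closedBall, mem_closedBall, Real.dist_eq, dist_eq_norm]
  have e : y - x = ((rp y - rp x : ℝ) : T) := by
    rw [AddCircle.coe_sub, coe_rp, coe_rp]
  rw [e]
  have hy0 := rp_nonneg y
  have hy1 := rp_lt y
  have hx0 := rp_nonneg x
  have hx1 := rp_lt x
  rw [UnitAddCircle.norm_eq]
  constructor
  · intro h
    refine le_trans ?_ h
    have := round_le (rp y - rp x) 0
    simpa using this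
  · intro h
    set m := round (rp y - rp x) with hm
    have h2 := abs_le.1 h
    have h3 : m = 0 := by
      have ha : (m : ℝ) < 1 := by linarith
      have hb : (-1 : ℝ) < m := by linarith
      have ha' : m < 1 := by exact_mod_cast ha
      have hb' : -1 < m := by exact_mod_cast hb
      omega
    rw [h3] at h
    simpa using h

/-- comparison of two finite measures on small balls -/
lemma compare (ρ M : Measure T) [IsFiniteMeasure ρ] [IsFiniteMeasure M] :
    ∀ᵐ x ∂M, x ≠ 0 → ∃ C : ℝ, ∀ᶠ r in 𝓝[>] (0 : ℝ),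
      ρ.real (closedBall x r) ≤ C * M.real (closedBall x r) := by
  have h1 := Besicovitch.ae_tendsto_rnDeriv (ρ.map rp) (M.map rp)
  have h2 := Measure.rnDeriv_lt_top (ρ.map rp) (M.map rp)
  have h3 := ae_of_ae_map rp_meas.aemeasurable (h1.and h2)
  filter_upwards [h3] with x hx hx0
  obtain ⟨h4, h5⟩ := hx
  obtain ⟨K, hK1, hK2⟩ := ENNReal.lt_iff_exists_nnreal_btwn.1 h5
  refine ⟨K, ?_⟩
  have h6 := h4.eventually (gt_mem_nhds hK1)
  have h7 : ∀ᶠ r in 𝓝[>] (0 : ℝ), r < min (rp x) (1 - rp x) := by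
    have : 0 < min (rp x) (1 - rp x) := lt_min (rp_pos hx0) (by linarith [rp_lt x])
    exact eventually_nhdsWithin_of_eventually_nhds (gt_mem_nhds this)
  filter_upwards [h6, h7] with r hr1 hr2
  have hb := pre_ball (hr2.trans_le (min_le_left _ _)) (hr2.trans_le (min_le_right _ _))
  rw [Measure.map_apply rp_meas measurableSet_closedBall,
    Measure.map_apply rp_meas measurableSet_closedBall, hb] at hr1
  have h8 := (ENNReal.div_le_iff_le_mul (Or.inr ENNReal.coe_ne_top)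
    (Or.inl (measure_ne_top _ _))).1 hr1.le
  have h9 := ENNReal.toReal_mono (ENNReal.mul_ne_top ENNReal.coe_ne_top (measure_ne_top _ _)) h8
  rwa [ENNReal.toReal_mul, ENNReal.coe_toReal] at h9

/-- **Small balls on the common part.** -/
theorem common_small {k : ℕ} (q : Fin (k + 1) → ℕ) (hq : ∀ i, 2 ≤ q i) (hMI : MI q)
    (μ : Fin (k + 1) → Measure T) (h1 : ∀ i, IsProbabilityMeasure (μ i))
    (h2 : ∀ i, Inv (q i) (μ i)) {θ : Measure T} (hat : ∀ x, θ {x} = 0) (hθ : ∀ i, θ ≪ μ i) :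
    ∀ᵐ x ∂θ, ∃ C : ℝ, ∃ᶠ r in 𝓝[>] (0 : ℝ), ∀ i,
      (μ i).real (closedBall x r) ≤ C / |Real.log r| ^ (k + 1) := by
  obtain ⟨M, hM1, hM2, hM3⟩ := family k q μ h1 h2
  obtain ⟨C, hC, hball⟩ := small_ball q (by omega) hq hMI
  have hθM := hM3 θ hθ
  have hnull : NullSingletonClass θ := ⟨hat⟩
  have hTor : ∀ᵐ x ∂θ, x ∉ Tor := by
    rw [ae_iff]
    simp only [not_not]
    exact Tor_countable.measure_zero θ
  have hcmp : ∀ᵐ x ∂θ, ∀ i, x ≠ 0 → ∃ C : ℝ, ∀ᶠ r in 𝓝[>] (0 : ℝ),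
      (μ i).real (closedBall x r) ≤ C * M.real (closedBall x r) := by
    rw [ae_all_iff]
    intro i
    exact hθM.ae_le (compare (μ i) M)
  filter_upwards [hTor, hcmp] with x hxT hx
  have hx0 : x ≠ 0 := by
    rintro rfl
    exact hxT ⟨1, le_rfl, by simp⟩
  choose K hK using fun i => hx i hx0
  -- one constant
  set K' : ℝ := ∑ i, |K i| with hK'
  have hKK : ∀ i, K i ≤ K' := fun i => (le_abs_self _).trans
    (Finset.single_le_sum (f := fun i => |K i|) (fun j _ => abs_nonneg _) (Finset.mem_univ i))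
  have hK0 : 0 ≤ K' := Finset.sum_nonneg fun i _ => abs_nonneg _
  refine ⟨K' * C, ?_⟩
  have hall : ∀ᶠ r in 𝓝[>] (0 : ℝ), ∀ i,
      (μ i).real (closedBall x r) ≤ K' * M.real (closedBall x r) := by
    rw [eventually_all]
    intro i
    filter_upwards [hK i] with r hr
    exact hr.trans (mul_le_mul_of_nonneg_right (hKK i) measureReal_nonneg)
  have hfr : ∃ᶠ r in 𝓝[>] (0 : ℝ), M.real (closedBall x r) ≤ C / |Real.log r| ^ (k + 1) := by
    rw [Filter.frequently_iff]
    intro U hU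
    rw [mem_nhdsWithin_iff_exists_mem_nhds_inter] at hU
    obtain ⟨V, hV, hVU⟩ := hU
    obtain ⟨r₀, hr₀, hr₀V⟩ := Metric.mem_nhds_iff.1 hV
    obtain ⟨r, h3, h4, _, h5⟩ := hball x hxT r₀ hr₀
    refine ⟨r, hVU ⟨hr₀V ?_, h3⟩, h5 M hM1 hM2⟩
    rw [mem_ball, Real.dist_eq, sub_zero, abs_of_pos h3]
    exact h4
  refine (hfr.and_eventually hall).mono fun r hr i => ?_
  calc (μ i).real (closedBall x r) ≤ K' * M.real (closedBall x r) := hr.2 i
    _ ≤ K' * (C / |Real.log r| ^ (k + 1)) := mul_le_mul_of_nonneg_left hr.1 hK0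
    _ = K' * C / |Real.log r| ^ (k + 1) := by ring

/-- **The criterion.** -/
theorem criterion {k : ℕ} (q : Fin (k + 1) → ℕ) (hq : ∀ i, 2 ≤ q i) (hMI : MI q)
    (μ : Fin (k + 1) → Measure T) (h1 : ∀ i, IsProbabilityMeasure (μ i))
    (h2 : ∀ i, Inv (q i) (μ i))
    (h3 : ∀ᵐ x ∂(μ 0), Tendsto (fun r : ℝ => |Real.log r| ^ (k + 1) *
      (μ 0).real (closedBall x r)) (𝓝[>] 0) atTop)
    {θ : Measure T} (hat : ∀ x, θ {x} = 0) (hθ : ∀ i, θ ≪ μ i) : θ = 0 := by
  have h4 := common_small q hq hMI μ h1 h2 hat hθ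
  have h5 := (hθ 0).ae_le h3
  rw [← ae_eq_bot, ← Filter.eventually_false_iff_eq_bot]
  filter_upwards [h4, h5] with x ⟨C, hC⟩ hx
  have h6 : ∀ᶠ r in 𝓝[>] (0 : ℝ), 0 < |Real.log r| := by
    have h1 : Tendsto (fun r : ℝ => |Real.log r|) (𝓝[>] 0) atTop :=
      tendsto_abs_atBot_atTop.comp Real.tendsto_log_nhdsGT_zero
    exact h1.eventually_gt_atTop 0
  obtain ⟨r, hr1, hr2, hr3⟩ := (hC.and_eventually ((hx.eventually_gt_atTop C).and h6)).exists
  have h7 := hr1 0
  rw [le_div_iff₀ (by positivity), mul_comm] at h7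
  exact absurd hr2 (not_lt.2 h7)

end Pool.Agent.X125.CP
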