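import Mathlib

/-!
An ergodic measure of a map `f` which is not singular to an invariant measure of a map `S` commuting
with `f` is invariant under a power of `S`.
-/

set_option autoImplicit false

open MeasureTheory Filter Topology Set
open scoped ENNReal

namespace Pool.Agent.X125.CP

variable {X : Type*} [MeasurableSpace X]

/-- two mutually singular measures below `μ` -/
lemma add_le_of_sing {μ a b : Measure X} (ha : a ≤ μ) (hb : b ≤ μ) (hab : a ⟂ₘ b) : a + b ≤ μ := by
  obtain ⟨s, hs, h1, h2⟩ := hab
  refine Measure.le_intro fun A hA _ => ?_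
  rw [Measure.add_apply]
  have e1 : a A ≤ μ (A ∩ sᶜ) := by
    have : a A ≤ a (A ∩ sᶜ) + a s := by
      refine (measure_mono ?_).trans (measure_union_le _ _)
      intro x hx
      by_cases h : x ∈ s
      · exact Or.inr h
      · exact Or.inl ⟨hx, h⟩
    rw [h1, add_zero] at this
    exact this.trans (ha _)
  have e2 : b A ≤ μ (A ∩ s) := by
    have : b A ≤ b (A ∩ s) + b sᶜ := by
      refine (measure_mono ?_).trans (measure_union_le _ _)
      intro x hx
      by_cases h : x ∈ s
      · exact Or.inl ⟨hx, h⟩
      · exact Or.inr h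
    rw [h2, add_zero] at this
    exact this.trans (hb _)
  calc a A + b A ≤ μ (A ∩ sᶜ) + μ (A ∩ s) := add_le_add e1 e2
    _ = μ A := by
        rw [add_comm]
        exact measure_inter_add_sdiff A hs

/-- the absolutely continuous part of `μ` with respect to `a` -/
noncomputable def W (μ a : Measure X) : Measure X := a.withDensity (μ.rnDeriv a)

lemma W_le (μ a : Measure X) : W μ a ≤ μ := Measure.withDensity_rnDeriv_le μ a

lemma W_ac (μ a : Measure X) : W μ a ≪ a := withDensity_absolutelyContinuous _ _

/-- it is the largest measure below `μ` which is absolutely continuous with respect to `a` -/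
lemma le_W {μ a κ : Measure X} [IsFiniteMeasure μ] [IsFiniteMeasure a] (h1 : κ ≤ μ) (h2 : κ ≪ a) :
    κ ≤ W μ a := by
  have := Measure.haveLebesgueDecomposition_of_sigmaFinite μ a
  obtain ⟨s, hs, h3, h4⟩ := Measure.mutuallySingular_singularPart μ a
  have e := Measure.rnDeriv_add_singularPart μ a
  refine Measure.le_intro fun A hA _ => ?_
  have h5 : κ sᶜ = 0 := h2 h4
  calc κ A ≤ κ (A ∩ s) + κ sᶜ := by
        refine (measure_mono ?_).trans (measure_union_le _ _)
        intro x hx
        by_cases h : x ∈ s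
        · exact Or.inl ⟨hx, h⟩
        · exact Or.inr h
    _ = κ (A ∩ s) := by rw [h5, add_zero]
    _ ≤ μ (A ∩ s) := h1 _
    _ = W μ a (A ∩ s) := by
        have e2 : μ (A ∩ s) = (a.withDensity (μ.rnDeriv a) + μ.singularPart a) (A ∩ s) := by rw [e]
        rw [e2, Measure.add_apply, measure_mono_null Set.inter_subset_right h3, add_zero]
        rfl
    _ ≤ W μ a A := measure_mono Set.inter_subset_left

instance {μ a : Measure X} [IsFiniteMeasure μ] : IsFiniteMeasure (W μ a) :=
  isFiniteMeasure_of_le μ (W_le μ a)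

/-- different ergodic probability measures are mutually singular -/
lemma erg_sing {f : X → X} {a b : Measure X} [IsProbabilityMeasure a] [IsProbabilityMeasure b]
    (ha : Ergodic f a) (hb : Ergodic f b) (hab : a ≠ b) : a ⟂ₘ b := by
  by_contra hcon
  apply hab
  have := Measure.haveLebesgueDecomposition_of_sigmaFinite a b
  have h0 : W a b ≠ 0 := by
    intro h
    apply hcon
    have e := Measure.rnDeriv_add_singularPart a b
    unfold W at h
    rw [h, zero_add] at e
    rw [← e]
    exact Measure.mutuallySingular_singularPart a b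
  have h1 : MeasurePreserving f (W a b) (W a b) :=
    ha.toMeasurePreserving.withDensity_rnDeriv hb.toMeasurePreserving
  obtain ⟨c, hc⟩ := hb.eq_smul_of_absolutelyContinuous h1 (W_ac a b)
  have hc0 : c ≠ 0 := by
    rintro rfl
    apply h0
    rw [hc, zero_smul]
  have h2 : b ≪ a := by
    have h3 : b ≪ W a b := by
      rw [hc]
      exact Measure.absolutelyContinuous_smul hc0
    exact h3.trans (Measure.absolutelyContinuous_of_le (W_le a b))
  exact (ha.eq_of_absolutelyContinuous hb.toMeasurePreserving h2).symm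

section

variable {S f : X → X} {μ ν : Measure X}

/-- the images of `ν` -/
noncomputable def im (S : X → X) (ν : Measure X) (i : ℕ) : Measure X := ν.map (S^[i])

lemma im_succ (hS : Measurable S) (i : ℕ) : im S ν (i + 1) = (im S ν i).map S := by
  unfold im
  rw [Measure.map_map hS (hS.iterate i)]
  rw [Function.iterate_succ']

lemma im_prob [IsProbabilityMeasure ν] (hS : Measurable S) (i : ℕ) :
    IsProbabilityMeasure (im S ν i) :=
  Measure.isProbabilityMeasure_map (hS.iterate i).aemeasurable

lemma im_erg (hS : Measurable S) (hSf : ∀ x, S (f x) = f (S x)) (hν : Ergodic f ν) (i : ℕ) :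
    Ergodic f (im S ν i) := by
  have h1 : MeasurePreserving (S^[i]) ν (im S ν i) := ⟨hS.iterate i, rfl⟩
  refine h1.ergodic_of_ergodic_semiconj hν hν.measurable ?_
  have h2 : ∀ j : ℕ, ∀ x, S^[j] (f x) = f (S^[j] x) := by
    intro j
    induction j with
    | zero => intro x; rfl
    | succ j ih =>
      intro x
      rw [Function.iterate_succ_apply', Function.iterate_succ_apply', ih, hSf]
  exact h2 i

/-- masses grow along the orbit -/
lemma W_mono [IsProbabilityMeasure μ] [IsProbabilityMeasure ν] (hμ : MeasurePreserving S μ μ)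
    (i : ℕ) : W μ (im S ν i) Set.univ ≤ W μ (im S ν (i + 1)) Set.univ := by
  have hS := hμ.measurable
  have := im_prob (ν := ν) hS i
  have := im_prob (ν := ν) hS (i + 1)
  have h1 : (W μ (im S ν i)).map S ≤ μ := by
    calc (W μ (im S ν i)).map S ≤ μ.map S := Measure.map_mono (W_le _ _) hS
      _ = μ := hμ.map_eq
  have h2 : (W μ (im S ν i)).map S ≪ im S ν (i + 1) := by
    rw [im_succ hS]
    exact (W_ac _ _).map hS
  have h3 := le_W h1 h2 Set.univ
  rwa [Measure.map_apply hS MeasurableSet.univ, Set.preimage_univ] at h3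

lemma W_mono' [IsProbabilityMeasure μ] [IsProbabilityMeasure ν] (hμ : MeasurePreserving S μ μ)
    {i j : ℕ} (hij : i ≤ j) : W μ (im S ν i) Set.univ ≤ W μ (im S ν j) Set.univ :=
  monotone_nat_of_le_succ (f := fun i => W μ (im S ν i) Set.univ) (fun i => W_mono hμ i) hij

/-- distinct images have total mass at most one -/
lemma mass_le [IsProbabilityMeasure μ] [IsProbabilityMeasure ν] (hμ : MeasurePreserving S μ μ)
    (hSf : ∀ x, S (f x) = f (S x)) (hν : Ergodic f ν) {k : ℕ}
    (hd : ∀ i j, i < j → j < k → im S ν i ≠ im S ν j) :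
    (k : ℝ≥0∞) * W μ ν Set.univ ≤ 1 := by
  have hS := hμ.measurable
  have him : im S ν 0 = ν := by
    unfold im
    rw [Function.iterate_zero, Measure.map_id]
  have key : ∀ l : ℕ, l ≤ k → (∑ i ∈ Finset.range l, W μ (im S ν i) ≤ μ) ∧
      ∀ j, l ≤ j → j < k → (∑ i ∈ Finset.range l, W μ (im S ν i)) ⟂ₘ W μ (im S ν j) := by
    intro l
    induction l with
    | zero =>
      intro _
      refine ⟨?_, fun j _ _ => ?_⟩
      · rw [Finset.range_zero, Finset.sum_empty]
        exact Measure.zero_le μ
      · rw [Finset.range_zero, Finset.sum_empty]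
        exact Measure.MutuallySingular.zero_left
    | succ l ih =>
      intro hl
      obtain ⟨h1, h2⟩ := ih (by omega)
      refine ⟨?_, fun j hj hjk => ?_⟩
      · rw [Finset.sum_range_succ]
        exact add_le_of_sing h1 (W_le _ _) (h2 l le_rfl (by omega))
      · rw [Finset.sum_range_succ]
        refine Measure.MutuallySingular.add_left (h2 j (by omega) hjk) ?_
        have := im_prob (ν := ν) hS l
        have := im_prob (ν := ν) hS j
        exact (erg_sing (im_erg hS hSf hν l) (im_erg hS hSf hν j)
          (hd l j (by omega) hjk)).mono_ac (W_ac _ _) (W_ac _ _)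
  have h1 : (∑ i ∈ Finset.range k, W μ (im S ν i)) Set.univ ≤ 1 :=
    ((key k le_rfl).1 Set.univ).trans (measure_univ (μ := μ)).le
  rw [Measure.finsetSum_apply] at h1
  refine le_trans ?_ h1
  have h2 : ∑ i ∈ Finset.range k, W μ ν Set.univ ≤ ∑ i ∈ Finset.range k,
      W μ (im S ν i) Set.univ := by
    refine Finset.sum_le_sum fun i _ => ?_
    have := W_mono' (ν := ν) hμ (Nat.zero_le i)
    rwa [him] at this
  rwa [Finset.sum_const, Finset.card_range, nsmul_eq_mul] at h2

/-- **The dichotomy.** -/
theorem dichotomy [IsProbabilityMeasure μ] [IsProbabilityMeasure ν] (hμ : MeasurePreserving S μ μ)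
    (hSf : ∀ x, S (f x) = f (S x)) (hν : Ergodic f ν) (hns : ¬ μ ⟂ₘ ν) :
    ∃ r : ℕ, 1 ≤ r ∧ (r : ℝ≥0∞) * W μ ν Set.univ ≤ 1 ∧ MeasurePreserving (S^[r]) ν ν := by
  have hS := hμ.measurable
  have him : im S ν 0 = ν := by
    unfold im
    rw [Function.iterate_zero, Measure.map_id]
  have hm : W μ ν Set.univ ≠ 0 := by
    intro h
    apply hns
    have := Measure.haveLebesgueDecomposition_of_sigmaFinite μ ν
    have e := Measure.rnDeriv_add_singularPart μ ν
    have h0 : W μ ν = 0 := Measure.measure_univ_eq_zero.1 h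
    unfold W at h0
    rw [h0, zero_add] at e
    rw [← e]
    exact Measure.mutuallySingular_singularPart μ ν
  have hex : ∃ j, ∃ i, i < j ∧ im S ν i = im S ν j := by
    by_contra hcon
    push Not at hcon
    have h1 : ∀ k : ℕ, (k : ℝ≥0∞) * W μ ν Set.univ ≤ 1 := fun k =>
      mass_le hμ hSf hν fun i j hij _ => hcon j i hij
    have h2 : W μ ν Set.univ ≠ ⊤ := measure_ne_top _ _
    have h3 : ∀ k : ℕ, (k : ℝ) * (W μ ν Set.univ).toReal ≤ 1 := by
      intro k
      have := ENNReal.toReal_mono ENNReal.one_ne_top (h1 k)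
      rwa [ENNReal.toReal_mul, ENNReal.toReal_natCast, ENNReal.toReal_one] at this
    have h4 : 0 < (W μ ν Set.univ).toReal := ENNReal.toReal_pos hm h2
    obtain ⟨k, hk⟩ := exists_nat_gt (1 / (W μ ν Set.univ).toReal)
    rw [div_lt_iff₀ h4] at hk
    exact absurd (h3 k) (not_le.2 hk)
  classical
  set j := Nat.find hex with hj
  obtain ⟨i, hij, he⟩ := Nat.find_spec hex
  have hmin : ∀ j' < j, ∀ i' < j', im S ν i' ≠ im S ν j' := by
    intro j' hj' i' hi' h
    exact Nat.find_min hex hj' ⟨i', hi', h⟩
  have hmass := mass_le (k := j) hμ hSf hν fun i' j' h1 h2 => hmin j' h2 i' h1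
  rcases Nat.eq_zero_or_pos i with h0 | hpos
  · subst h0
    refine ⟨j, by omega, hmass, hS.iterate j, ?_⟩
    rw [him] at he
    exact he.symm
  · exfalso
    have hne : im S ν (i - 1) ≠ im S ν (j - 1) := hmin (j - 1) (by omega) (i - 1) (by omega)
    have := im_prob (ν := ν) hS (i - 1)
    have := im_prob (ν := ν) hS (j - 1)
    have := im_prob (ν := ν) hS i
    have hs := (erg_sing (im_erg hS hSf hν (i - 1)) (im_erg hS hSf hν (j - 1)) hne).mono_ac
      (W_ac μ _) (W_ac μ _)
    have h1 := add_le_of_sing (W_le μ _) (W_le μ _) hs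
    have h2 : (W μ (im S ν (i - 1)) + W μ (im S ν (j - 1))).map S ≤ μ := by
      calc _ ≤ μ.map S := Measure.map_mono h1 hS
        _ = μ := hμ.map_eq
    have e1 : (im S ν (i - 1)).map S = im S ν i := by
      rw [← im_succ hS, Nat.sub_add_cancel hpos]
    have e2 : (im S ν (j - 1)).map S = im S ν i := by
      rw [← im_succ hS, Nat.sub_add_cancel (by omega)]
      exact he.symm
    have h3 : (W μ (im S ν (i - 1)) + W μ (im S ν (j - 1))).map S ≪ im S ν i := by
      rw [Measure.map_add _ _ hS]
      refine Measure.AbsolutelyContinuous.add_left ?_ ?_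
      · rw [← e1]; exact (W_ac _ _).map hS
      · rw [← e2]; exact (W_ac _ _).map hS
    have h4 := le_W h2 h3 Set.univ
    rw [Measure.map_apply hS MeasurableSet.univ, Set.preimage_univ, Measure.add_apply] at h4
    have h5 := W_mono' (ν := ν) hμ (show i ≤ j - 1 by omega)
    have h6 := W_mono' (ν := ν) hμ (Nat.zero_le (i - 1))
    rw [him] at h6
    have h7 : W μ ν Set.univ + W μ (im S ν i) Set.univ ≤ 0 + W μ (im S ν i) Set.univ := by
      rw [zero_add]
      exact (add_le_add h6 h5).trans h4
    have h8 := (ENNReal.add_le_add_iff_right (measure_ne_top _ _)).1 h7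
    exact hm (le_antisymm h8 zero_le)

end

end Pool.Agent.X125.CP
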