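import Pool.Agent.X125.CP.Pair
import Pool.Agent.X125.CP.Erg

/-!
Finite families of measures, and the equivalence with Furstenberg's conjecture.
-/

set_option autoImplicit false

open MeasureTheory Filter Topology Set
open scoped ENNReal

namespace Pool.Agent.X125.CP

/-- families -/
theorem family (k : ℕ) : ∀ (n : Fin (k + 1) → ℕ) (μ : Fin (k + 1) → Measure T),
    (∀ i, IsProbabilityMeasure (μ i)) → (∀ i, Inv (n i) (μ i)) →
    ∃ M : Measure T, IsProbabilityMeasure M ∧ (∀ i, Inv (n i) M) ∧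
      ∀ θ : Measure T, (∀ i, θ ≪ μ i) → θ ≪ M := by
  induction k with
  | zero =>
    intro n μ h1 h2
    refine ⟨μ 0, h1 0, fun i => ?_, fun θ h => h 0⟩
    have : i = 0 := Fin.fin_one_eq_zero i
    rw [this]
    exact h2 0
  | succ k ih =>
    intro n μ h1 h2
    obtain ⟨M, hM1, hM2, hM3⟩ := ih (fun i => n i.castSucc) (fun i => μ i.castSucc)
      (fun i => h1 _) (fun i => h2 _)
    have := h1 (Fin.last (k + 1))
    obtain ⟨M', h3, h4, h5, h6⟩ := pair (S := Set.range fun i : Fin (k + 1) => n i.castSucc)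
      (μ := M) (ν := μ (Fin.last (k + 1))) (q := n (Fin.last (k + 1)))
      (by rintro s ⟨i, rfl⟩; exact hM2 i) (h2 _)
    refine ⟨M', h3, fun i => ?_, fun θ h => ?_⟩
    · refine Fin.lastCases ?_ (fun i => ?_) i
      · exact h5
      · exact h4 _ ⟨i, rfl⟩
    · exact h6 θ (hM3 θ fun i => h _) (h _)

/-- the rational points -/
def Tor : Set T := {x | ∃ n : ℕ, 1 ≤ n ∧ n • x = 0}

lemma mem_Tor {x : T} : x ∈ Tor ↔ ∃ n : ℕ, 1 ≤ n ∧ n • x = 0 := Iff.rfl

lemma Tor_countable : Tor.Countable := by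
  refine (Set.countable_range fun r : ℚ => ((r : ℝ) : T)).mono ?_
  rintro x ⟨n, hn, hx⟩
  induction x using QuotientAddGroup.induction_on with
  | H t =>
    have h1 : ((n • t : ℝ) : T) = 0 := hx
    rw [AddCircle.coe_eq_zero_iff] at h1
    obtain ⟨m, hm⟩ := h1
    refine ⟨(m : ℚ) / n, ?_⟩
    show (((((m : ℚ) / n : ℚ) : ℝ)) : T) = (t : T)
    congr 1
    rw [zsmul_eq_mul, mul_one, nsmul_eq_mul] at hm
    have hn' : (n : ℝ) ≠ 0 := by
      have : (0 : ℝ) < n := by exact_mod_cast hn
      exact this.ne'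
    push_cast
    rw [hm]
    field_simp

lemma Tor_meas : MeasurableSet Tor := Tor_countable.measurableSet

lemma Tor_pre {p : ℕ} (hp : 1 ≤ p) : (fun x : T => p • x) ⁻¹' Torᶜ = Torᶜ := by
  ext x
  simp only [Set.mem_preimage, Set.mem_compl_iff, mem_Tor, not_iff_not]
  constructor
  · rintro ⟨n, hn, h⟩
    refine ⟨n * p, Nat.mul_pos hn hp, ?_⟩
    rw [mul_smul]; exact h
  · rintro ⟨n, hn, h⟩
    refine ⟨n, hn, ?_⟩
    rw [smul_comm, h, smul_zero]

/-- invariant measures have no atoms off the rational points -/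
lemma no_atom {p : ℕ} (hp : 2 ≤ p) {M : Measure T} [IsFiniteMeasure M] (h : Inv p M) {x : T}
    (hx : x ∉ Tor) : M {x} = 0 := by
  by_contra hcon
  have hle : ∀ i : ℕ, M {x} ≤ M {(p ^ i) • x} := by
    intro i
    have e := (h.pow i).measure_preimage (s := {(p ^ i) • x})
      (measurableSet_singleton _).nullMeasurableSet
    rw [← e]
    refine measure_mono fun y hy => ?_
    rw [Set.mem_singleton_iff] at hy
    rw [hy]
    exact Set.mem_singleton _
  have hinj : Function.Injective fun i : ℕ => (p ^ i) • x := by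
    have key : ∀ i j : ℕ, i < j → (p ^ i) • x ≠ (p ^ j) • x := by
      intro i j hij he
      apply hx
      refine ⟨p ^ j - p ^ i, ?_, ?_⟩
      · have := Nat.pow_lt_pow_right (show 1 < p by omega) hij
        omega
      · have h1 : p ^ i ≤ p ^ j := Nat.pow_le_pow_right (by omega) hij.le
        have h2 : (p ^ j - p ^ i) • x + (p ^ i) • x = (p ^ j) • x := by
          rw [← add_smul, Nat.sub_add_cancel h1]
        rw [← he] at h2
        exact add_eq_right.1 h2
    intro i j hij
    by_contra hne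
    rcases Nat.lt_or_gt_of_ne hne with h1 | h1
    · exact key i j h1 hij
    · exact key j i h1 hij.symm
  have h1 : M (⋃ i : ℕ, {(p ^ i) • x}) = ∑' i : ℕ, M {(p ^ i) • x} := by
    refine measure_iUnion ?_ fun i => measurableSet_singleton _
    intro i j hij
    rw [Function.onFun, Set.disjoint_singleton]
    exact fun he => hij (hinj he)
  have h2 : (⊤ : ℝ≥0∞) ≤ M (⋃ i : ℕ, {(p ^ i) • x}) := by
    rw [h1, ← ENNReal.tsum_const_eq_top_of_ne_zero (α := ℕ) hcon]
    exact ENNReal.tsum_le_tsum hle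
  exact (measure_lt_top M _).ne (top_le_iff.1 h2)

/-- the part of an invariant measure off the rational points -/
lemma restrict_inv {p : ℕ} (hp : 1 ≤ p) {M : Measure T} (h : Inv p M) : Inv p (M.restrict Torᶜ) := by
  have h1 := MeasurePreserving.restrict_preimage h Tor_meas.compl
  rwa [Tor_pre hp] at h1

lemma restrict_no_atom {p : ℕ} (hp : 2 ≤ p) {M : Measure T} [IsFiniteMeasure M] (h : Inv p M)
    (x : T) : M.restrict Torᶜ {x} = 0 := by
  rw [Measure.restrict_apply (measurableSet_singleton x)]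
  by_cases hx : x ∈ Tor
  · convert measure_empty (μ := M)
    ext y
    simp only [Set.mem_inter_iff, Set.mem_singleton_iff, Set.mem_compl_iff,
      Set.mem_empty_iff_false, iff_false, not_and, not_not]
    rintro rfl
    exact hx
  · exact measure_mono_null Set.inter_subset_left (no_atom hp h hx)

/-- an atomless measure which is absolutely continuous with respect to `M` -/
lemma ac_restrict {M θ : Measure T} (h : θ ≪ M) (hθ : ∀ x, θ {x} = 0) : θ ≪ M.restrict Torᶜ := by
  refine Measure.AbsolutelyContinuous.mk fun A hA h0 => ?_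
  rw [Measure.restrict_apply hA] at h0
  have h1 : θ (A ∩ Torᶜ) = 0 := h h0
  have h2 : θ Tor = 0 := by
    have : NullSingletonClass θ := ⟨hθ⟩
    exact Tor_countable.measure_zero θ
  refine measure_mono_null (t := (A ∩ Torᶜ) ∪ Tor) ?_ (measure_union_null h1 h2)
  intro x hx
  by_cases hx' : x ∈ Tor
  · exact Or.inr hx'
  · exact Or.inl ⟨hx, hx'⟩

/-- The atomless version. -/
theorem family_atomless (k : ℕ) (n : Fin (k + 1) → ℕ) (hn : ∀ i, 2 ≤ n i)
    (μ : Fin (k + 1) → Measure T)
    (h1 : ∀ i, IsProbabilityMeasure (μ i)) (h2 : ∀ i, Inv (n i) (μ i)) {θ : Measure T}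
    (hθ0 : θ ≠ 0) (hθa : ∀ x, θ {x} = 0) (hθ : ∀ i, θ ≪ μ i) :
    ∃ M : Measure T, IsProbabilityMeasure M ∧ (∀ i, Inv (n i) M) ∧ (∀ x, M {x} = 0) ∧
      ∀ ρ : Measure T, (∀ x, ρ {x} = 0) → (∀ i, ρ ≪ μ i) → ρ ≪ M := by
  obtain ⟨M, hM1, hM2, hM3⟩ := family k n μ h1 h2
  have h3 : M.restrict Torᶜ ≠ 0 := by
    intro h0
    have h4 := ac_restrict (hM3 θ hθ) hθa
    rw [h0] at h4
    exact hθ0 (Measure.absolutelyContinuous_zero_iff.1 h4)
  set c : ℝ≥0∞ := (M.restrict Torᶜ Set.univ)⁻¹ with hc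
  have hc0 : c ≠ 0 := by
    rw [hc]
    exact ENNReal.inv_ne_zero.2 (measure_ne_top _ _)
  have hc1 : M.restrict Torᶜ Set.univ ≠ 0 := by
    intro h
    exact h3 (Measure.measure_univ_eq_zero.1 h)
  refine ⟨c • M.restrict Torᶜ, ⟨?_⟩, fun i => ?_, fun x => ?_, fun ρ hρa hρ => ?_⟩
  · rw [Measure.smul_apply, smul_eq_mul, hc]
    exact ENNReal.inv_mul_cancel hc1 (measure_ne_top _ _)
  · have := restrict_inv (show 1 ≤ n i by have := hn i; omega) (hM2 i)
    exact MeasurePreserving.smul_measure this c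
  · rw [Measure.smul_apply, restrict_no_atom (hn 0) (hM2 0), smul_zero]
  · exact (ac_restrict (hM3 ρ hρ) hρa).trans (Measure.absolutelyContinuous_smul hc0)

/-- The equivalence. -/
theorem equivalence (k : ℕ) (n : Fin (k + 1) → ℕ) (hn : ∀ i, 2 ≤ n i) :
    (∀ μ : Measure T, IsProbabilityMeasure μ → (∀ x, μ {x} = 0) → (∀ i, Inv (n i) μ) →
      μ = volume) ↔
    (∀ μ : Fin (k + 1) → Measure T, (∀ i, IsProbabilityMeasure (μ i)) →
      (∀ i x, μ i {x} = 0) → (∀ i, Inv (n i) (μ i)) → (∀ i, μ i ⟂ₘ volume) →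
      ∀ θ : Measure T, (∀ i, θ ≪ μ i) → θ = 0) := by
  constructor
  · intro H μ h1 h2 h3 h4 θ hθ
    by_contra h0
    obtain ⟨M, hM1, hM2, hM3, hM4⟩ := family_atomless k n hn μ h1 h3 h0
      (fun x => (hθ 0) (h2 0 x)) hθ
    have h5 := H M hM1 hM3 hM2
    have h6 : θ ≪ volume := by
      rw [← h5]
      exact hM4 θ (fun x => (hθ 0) (h2 0 x)) hθ
    have h7 : θ ⟂ₘ θ := (h4 0).mono_ac (hθ 0) h6
    exact h0 (Measure.MutuallySingular.self_iff θ |>.1 h7)
  · intro H μ h1 h2 h3
    have hv : Ergodic (fun x : T => n 0 • x) (volume : Measure T) := by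
      have := AddCircle.ergodic_nsmul (T := (1 : ℝ)) (n := n 0) (by have := hn 0; omega)
      exact this
    have hvi : ∀ i, Inv (n i) (volume : Measure T) := fun i =>
      (AddCircle.ergodic_nsmul (T := (1 : ℝ)) (n := n i) (by have := hn i; omega)).toMeasurePreserving
    have := Measure.haveLebesgueDecomposition_of_sigmaFinite μ (volume : Measure T)
    have hs : μ.singularPart volume = 0 := by
      by_contra hs0
      set s : Measure T := μ.singularPart volume with hs
      have hsle : s ≤ μ := Measure.singularPart_le _ _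
      have hfin : IsFiniteMeasure s := isFiniteMeasure_of_le μ hsle
      have hs1 : s Set.univ ≠ 0 := fun h => hs0 (Measure.measure_univ_eq_zero.1 h)
      set c : ℝ≥0∞ := (s Set.univ)⁻¹ with hc
      have hc0 : c ≠ 0 := by
        rw [hc]
        exact ENNReal.inv_ne_zero.2 (measure_ne_top _ _)
      have h4 := H (fun _ => c • s) (fun _ => ⟨by
          rw [Measure.smul_apply, smul_eq_mul, hc]
          exact ENNReal.inv_mul_cancel hs1 (measure_ne_top _ _)⟩)
        (fun _ x => by
          rw [Measure.smul_apply]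
          have : s {x} = 0 := le_antisymm ((hsle {x}).trans (h2 x).le) zero_le
          rw [this, smul_zero])
        (fun i => MeasurePreserving.smul_measure ((h3 i).singularPart (hvi i)) c)
        (fun _ => (Measure.mutuallySingular_singularPart μ volume).smul c)
        (c • s) (fun _ => Measure.AbsolutelyContinuous.rfl)
      have h5 : (c • s) Set.univ = 0 := by rw [h4]; simp
      rw [Measure.smul_apply, smul_eq_mul, hc, ENNReal.inv_mul_cancel hs1 (measure_ne_top _ _)] at h5
      exact one_ne_zero h5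
    have hac : μ ≪ volume := (Measure.singularPart_eq_zero μ volume).1 hs
    have : IsProbabilityMeasure (volume : Measure T) := ⟨by simp⟩
    exact (hv.eq_of_absolutelyContinuous (h3 0) hac)

end Pool.Agent.X125.CP
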