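import Mathlib

/-!
The common part of a `×p` invariant and a `×q` invariant measure is absolutely continuous with
respect to a jointly invariant measure.
-/

set_option autoImplicit false

open MeasureTheory Filter Topology Set
open scoped ENNReal BoundedContinuousFunction

namespace Pool.Agent.X125.CP

/-- the circle -/
abbrev T : Type := UnitAddCircle

/-- `μ` is invariant under multiplication by `n` -/
abbrev Inv (n : ℕ) (μ : Measure T) : Prop := MeasurePreserving (fun x : T => n • x) μ μ

lemma cont (n : ℕ) : Continuous fun x : T => n • x := continuous_nsmul n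

lemma meas (n : ℕ) : Measurable fun x : T => n • x := (cont n).measurable

/-- powers preserve -/
lemma Inv.pow {q : ℕ} {ν : Measure T} (h : Inv q ν) (j : ℕ) : Inv (q ^ j) ν := by
  induction j with
  | zero =>
    have e : (fun x : T => (q ^ 0) • x) = id := by
      funext x; simp
    unfold Inv
    rw [e]
    exact MeasurePreserving.id ν
  | succ j ih =>
    have e : (fun x : T => (q ^ (j + 1)) • x) = (fun x : T => (q ^ j) • x) ∘ fun x : T => q • x := by
      funext x
      simp only [Function.comp]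
      rw [pow_succ, mul_smul]
    unfold Inv
    rw [e]
    exact ih.comp h

/-- the image of an `s` invariant measure is `s` invariant -/
lemma Inv.map {s : ℕ} {μ : Measure T} (h : Inv s μ) (n : ℕ) :
    Inv s (μ.map fun x : T => n • x) := by
  refine ⟨meas s, ?_⟩
  rw [Measure.map_map (meas s) (meas n)]
  have e : ((fun x : T => s • x) ∘ fun x : T => n • x) = (fun x : T => n • x) ∘ fun x : T => s • x := by
    funext x
    simp only [Function.comp]
    exact smul_comm s n x
  rw [e, ← Measure.map_map (meas n) (meas s), h.map_eq]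

/-- the averages -/
noncomputable def avg (q : ℕ) (μ : Measure T) (J : ℕ) : Measure T :=
  ((J : ℝ≥0∞) + 1)⁻¹ • ∑ j ∈ Finset.range (J + 1), μ.map (fun x : T => (q ^ j) • x)

lemma avg_apply (q : ℕ) (μ : Measure T) (J : ℕ) (A : Set T) :
    avg q μ J A = ((J : ℝ≥0∞) + 1)⁻¹ * ∑ j ∈ Finset.range (J + 1),
      μ.map (fun x : T => (q ^ j) • x) A := by
  unfold avg
  rw [Measure.smul_apply, smul_eq_mul, Measure.finsetSum_apply]

instance avg_prob (q : ℕ) (μ : Measure T) [IsProbabilityMeasure μ] (J : ℕ) :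
    IsProbabilityMeasure (avg q μ J) := by
  constructor
  rw [avg_apply]
  have h1 : ∀ j ∈ Finset.range (J + 1), μ.map (fun x : T => (q ^ j) • x) Set.univ = 1 := by
    intro j _
    have : IsProbabilityMeasure (μ.map (fun x : T => (q ^ j) • x)) :=
      Measure.isProbabilityMeasure_map (meas _).aemeasurable
    exact measure_univ
  rw [Finset.sum_congr rfl h1, Finset.sum_const, Finset.card_range, nsmul_eq_mul, mul_one]
  push_cast
  exact ENNReal.inv_mul_cancel (by simp) (by finiteness)

lemma avg_inv {q : ℕ} {μ : Measure T} {s : ℕ} (h : Inv s μ) (J : ℕ) : Inv s (avg q μ J) := by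
  refine ⟨meas s, ?_⟩
  unfold avg
  rw [Measure.map_smul]
  congr 1
  rw [Measure.map_finset_sum (meas s).aemeasurable]
  exact Finset.sum_congr rfl fun j _ => (h.map (q ^ j)).map_eq

/-- limits of nearly invariant measures are invariant -/
lemma inv_of_lim {s : ℕ} {F : Filter ℕ} [F.NeBot] {lam : ℕ → ProbabilityMeasure T}
    {M : ProbabilityMeasure T} (h : Tendsto lam F (𝓝 M))
    (hd : ∀ f : T →ᵇ ℝ, Tendsto (fun J => ∫ x, f (s • x) ∂(lam J : Measure T) -
      ∫ x, f x ∂(lam J : Measure T)) F (𝓝 0)) : Inv s (M : Measure T) := by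
  refine ⟨meas s, ?_⟩
  have : IsProbabilityMeasure ((M : Measure T).map fun x : T => s • x) :=
    Measure.isProbabilityMeasure_map (meas s).aemeasurable
  refine ext_of_forall_integral_eq_of_IsFiniteMeasure fun f => ?_
  rw [integral_map (meas s).aemeasurable f.continuous.aestronglyMeasurable]
  have h1 := (ProbabilityMeasure.tendsto_iff_forall_integral_tendsto.1 h) f
  have h2 := (ProbabilityMeasure.tendsto_iff_forall_integral_tendsto.1 h)
    (f.compContinuous ⟨_, cont s⟩)
  have h3 := tendsto_nhds_unique (h2.sub h1) (hd f)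
  exact sub_eq_zero.1 h3

lemma integral_avg (q : ℕ) (μ : Measure T) [IsProbabilityMeasure μ] (J : ℕ) (f : T →ᵇ ℝ) :
    ∫ x, f x ∂(avg q μ J) = ((J : ℝ) + 1)⁻¹ * ∑ j ∈ Finset.range (J + 1),
      ∫ x, f ((q ^ j) • x) ∂μ := by
  unfold avg
  rw [integral_smul_measure, integral_finsetSum_measure]
  · rw [smul_eq_mul]
    congr 1
    · rw [ENNReal.toReal_inv]
      congr 1
    · refine Finset.sum_congr rfl fun j _ => ?_
      exact integral_map (meas _).aemeasurable f.continuous.aestronglyMeasurable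
  · intro j _
    have : IsProbabilityMeasure (μ.map (fun x : T => (q ^ j) • x)) :=
      Measure.isProbabilityMeasure_map (meas _).aemeasurable
    exact f.integrable _

/-- a set on which the common part has to vanish -/
lemma vanish {q : ℕ} {μ ν : Measure T} [IsProbabilityMeasure μ] [IsProbabilityMeasure ν]
    (hν : Inv q ν) {F : Filter ℕ} [F.NeBot] {lam : ℕ → ProbabilityMeasure T}
    (hlam : ∀ J, (lam J : Measure T) = avg q μ J) {M : ProbabilityMeasure T}
    (hM : Tendsto lam F (𝓝 M)) {Z : Set T} (hZ : MeasurableSet Z)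
    (hZi : (fun x : T => q • x) ⁻¹' Z =ᵐ[ν] Z) (hZM : (M : Measure T) Z = 0)
    {θ : Measure T} (h1 : θ ≤ μ) (h2 : θ ≤ ν) : θ Z = 0 := by
  -- the iterated preimages
  have hit : ∀ j : ℕ, (fun x : T => (q ^ j) • x) ⁻¹' Z =ᵐ[ν] Z := by
    intro j
    induction j with
    | zero => simpa using ae_eq_refl Z
    | succ j ih =>
      have e : (fun x : T => (q ^ (j + 1)) • x) ⁻¹' Z =
          (fun x : T => q • x) ⁻¹' ((fun x : T => (q ^ j) • x) ⁻¹' Z) := by
        ext x
        simp only [Set.mem_preimage]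
        rw [pow_succ, mul_smul]
      rw [e]
      exact (hν.quasiMeasurePreserving.preimage_ae_eq ih).trans hZi
  have key : ∀ ε : ℝ≥0∞, ε ≠ 0 → θ Z ≤ ε := by
    intro ε hε
    obtain ⟨K, hKZ, hKc, hK⟩ := hZ.exists_isClosed_sdiff_lt (μ := ν) (measure_ne_top _ _) hε
    have hj : ∀ j : ℕ, θ Z ≤ μ.map (fun x : T => (q ^ j) • x) K + ε := by
      intro j
      have e1 : θ Z = θ ((fun x : T => (q ^ j) • x) ⁻¹' Z) :=
        measure_congr ((Measure.absolutelyContinuous_of_le h2).ae_eq (hit j)).symm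
      have e2 : (fun x : T => (q ^ j) • x) ⁻¹' Z ⊆ ((fun x : T => (q ^ j) • x) ⁻¹' K) ∪
          ((fun x : T => (q ^ j) • x) ⁻¹' (Z \ K)) := by
        intro x hx
        by_cases hxK : (q ^ j) • x ∈ K
        · exact Or.inl hxK
        · exact Or.inr ⟨hx, hxK⟩
      rw [e1]
      refine (measure_mono e2).trans ((measure_union_le _ _).trans ?_)
      refine add_le_add ?_ ?_
      · rw [Measure.map_apply (meas _) hKc.measurableSet]
        exact h1 _
      · refine (h2 _).trans ?_
        rw [(hν.pow j).measure_preimage (hZ.diff hKc.measurableSet).nullMeasurableSet]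
        exact hK.le
    have hJ : ∀ J : ℕ, θ Z ≤ (lam J : Measure T) K + ε := by
      intro J
      rw [hlam J, avg_apply]
      have h3 : ∑ j ∈ Finset.range (J + 1), θ Z ≤ ∑ j ∈ Finset.range (J + 1),
          (μ.map (fun x : T => (q ^ j) • x) K + ε) := Finset.sum_le_sum fun j _ => hj j
      rw [Finset.sum_const, Finset.card_range, Finset.sum_add_distrib, Finset.sum_const,
        Finset.card_range, nsmul_eq_mul, nsmul_eq_mul] at h3
      push_cast at h3
      have h0 : ((J : ℝ≥0∞) + 1) ≠ 0 := by simp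
      have ht : ((J : ℝ≥0∞) + 1) ≠ ⊤ := by finiteness
      calc θ Z = ((J : ℝ≥0∞) + 1)⁻¹ * (((J : ℝ≥0∞) + 1) * θ Z) := by
            rw [← mul_assoc, ENNReal.inv_mul_cancel h0 ht, one_mul]
        _ ≤ ((J : ℝ≥0∞) + 1)⁻¹ * (∑ j ∈ Finset.range (J + 1),
              μ.map (fun x : T => (q ^ j) • x) K + ((J : ℝ≥0∞) + 1) * ε) := by gcongr
        _ = _ := by
            rw [mul_add, ← mul_assoc _ _ ε, ENNReal.inv_mul_cancel h0 ht, one_mul]
    have h4 := ProbabilityMeasure.limsup_measure_closed_le_of_tendsto hM hKc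
    have h5 : (M : Measure T) K = 0 := measure_mono_null hKZ hZM
    rw [h5] at h4
    by_contra hcon
    rw [not_le] at hcon
    have h6 : θ Z - ε ≤ F.limsup fun i => (lam i : Measure T) K := by
      refine le_limsup_of_frequently_le (Eventually.frequently (Eventually.of_forall fun J => ?_))
      exact tsub_le_iff_right.2 (hJ J)
    have h7 : θ Z - ε ≤ 0 := h6.trans h4
    rw [tsub_le_iff_right, zero_add] at h7
    exact absurd h7 (not_le.2 hcon)
  refine le_antisymm ?_ zero_le
  refine ENNReal.le_of_forall_pos_le_add fun ε hε _ => ?_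
  rw [zero_add]
  exact key ε (by exact_mod_cast hε.ne')

/-- the common part is absolutely continuous with respect to the limit -/
lemma common {q : ℕ} {μ ν : Measure T} [IsProbabilityMeasure μ] [IsProbabilityMeasure ν]
    (hν : Inv q ν) {F : Filter ℕ} [F.NeBot] {lam : ℕ → ProbabilityMeasure T}
    (hlam : ∀ J, (lam J : Measure T) = avg q μ J) {M : ProbabilityMeasure T}
    (hM : Tendsto lam F (𝓝 M)) (hMq : Inv q (M : Measure T))
    {θ : Measure T} (h1 : θ ≪ μ) (h2 : θ ≪ ν) : θ ≪ M := by
  set M' : Measure T := (M : Measure T) with hM'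
  -- the set where the density vanishes
  set Z₁ : Set T := {x | M'.rnDeriv ν x = 0} with hZ₁
  have hZ₁m : MeasurableSet Z₁ := (Measure.measurable_rnDeriv M' ν) (measurableSet_singleton 0)
  obtain ⟨N, hNm, hN1, hN2⟩ := Measure.mutuallySingular_singularPart M' ν
  -- `M'.singularPart ν N = 0`, `ν Nᶜ = 0`
  set Z : Set T := Z₁ ∩ N with hZ
  have hZm : MeasurableSet Z := hZ₁m.inter hNm
  have hZZ₁ : Z =ᵐ[ν] Z₁ := by
    have : N =ᵐ[ν] Set.univ := by
      rw [ae_eq_univ]; exact hN2
    simpa using (ae_eq_refl (μ := ν) Z₁).inter this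
  have hM0 : M' Z = 0 := by
    have := Measure.haveLebesgueDecomposition_of_sigmaFinite M' ν
    have e := Measure.rnDeriv_add_singularPart M' ν
    have e2 : M' Z = (ν.withDensity (M'.rnDeriv ν) + M'.singularPart ν) Z := by rw [e]
    rw [e2, Measure.add_apply, measure_mono_null (Set.inter_subset_right) hN1, add_zero]
    rw [withDensity_apply_eq_zero (Measure.measurable_rnDeriv M' ν)]
    convert measure_empty (μ := ν)
    ext x
    simp only [hZ, hZ₁, Set.mem_inter_iff, Set.mem_empty_iff_false, iff_false]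
    rintro ⟨h, h', _⟩
    exact h h'
  have hinv : (fun x : T => q • x) ⁻¹' Z =ᵐ[ν] Z := by
    have e1 := hMq.rnDeriv_comp_aeEq hν
    have e2 : (fun x : T => q • x) ⁻¹' Z₁ =ᵐ[ν] Z₁ := by
      rw [eventuallyEq_set]
      filter_upwards [e1] with x hx
      simp only [Function.comp] at hx
      show M'.rnDeriv ν (q • x) = 0 ↔ M'.rnDeriv ν x = 0
      rw [hx]
    exact (hν.quasiMeasurePreserving.preimage_ae_eq hZZ₁).trans (e2.trans hZZ₁.symm)
  -- the common part
  set g : T → ℝ≥0∞ := fun x => min 1 (μ.rnDeriv ν x) with hg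
  have hgm : Measurable g := measurable_const.min (Measure.measurable_rnDeriv μ ν)
  have h3 : ν.withDensity g ≤ ν := by
    calc ν.withDensity g ≤ ν.withDensity 1 :=
          withDensity_mono (Eventually.of_forall fun x => min_le_left _ _)
      _ = ν := withDensity_one
  have h4 : ν.withDensity g ≤ μ :=
    (withDensity_mono (Eventually.of_forall fun x => min_le_right _ _)).trans
      (Measure.withDensity_rnDeriv_le μ ν)
  have h5 := vanish hν hlam hM hZm hinv hM0 h4 h3
  rw [withDensity_apply_eq_zero hgm] at h5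
  -- `θ Z = 0`
  have hθZ : θ Z = 0 := by
    obtain ⟨N', hN'm, hN'1, hN'2⟩ := Measure.mutuallySingular_singularPart μ ν
    have e1 : μ (Z ∩ N') = 0 := by
      have := Measure.haveLebesgueDecomposition_of_sigmaFinite μ ν
      have e := Measure.rnDeriv_add_singularPart μ ν
      have e2 : μ (Z ∩ N') = (ν.withDensity (μ.rnDeriv ν) + μ.singularPart ν) (Z ∩ N') := by rw [e]
      rw [e2, Measure.add_apply, measure_mono_null (Set.inter_subset_right) hN'1, add_zero]
      rw [withDensity_apply_eq_zero (Measure.measurable_rnDeriv μ ν)]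
      refine measure_mono_null ?_ h5
      rintro x ⟨hx1, hx2, _⟩
      refine ⟨?_, hx2⟩
      simp only [hg]
      show min 1 (μ.rnDeriv ν x) ≠ 0
      intro h0
      rcases min_eq_iff.1 h0 with h | h
      · exact one_ne_zero h.1
      · exact hx1 h.1
    have e2 : θ (Z ∩ N') = 0 := h1 e1
    have e3 : θ (N'ᶜ) = 0 := h2 hN'2
    refine measure_mono_null (t := (Z ∩ N') ∪ N'ᶜ) ?_ (measure_union_null e2 e3)
    intro x hx
    by_cases h : x ∈ N'
    · exact Or.inl ⟨hx, h⟩
    · exact Or.inr h
  refine Measure.AbsolutelyContinuous.mk fun A hA hA0 => ?_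
  have h6 : ν.withDensity (M'.rnDeriv ν) A = 0 :=
    le_antisymm ((Measure.withDensity_rnDeriv_le M' ν A).trans hA0.le) zero_le
  rw [withDensity_apply_eq_zero (Measure.measurable_rnDeriv M' ν)] at h6
  have h7 : θ ({x | M'.rnDeriv ν x ≠ 0} ∩ A) = 0 := h2 h6
  have h8 : θ Nᶜ = 0 := h2 hN2
  refine measure_mono_null (t := Z ∪ (({x | M'.rnDeriv ν x ≠ 0} ∩ A) ∪ Nᶜ)) ?_
    (measure_union_null hθZ (measure_union_null h7 h8))
  intro x hx
  by_cases hN' : x ∈ N
  · by_cases hx1 : M'.rnDeriv ν x = 0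
    · exact Or.inl ⟨hx1, hN'⟩
    · exact Or.inr (Or.inl ⟨hx1, hx⟩)
  · exact Or.inr (Or.inr hN')

/-- The pair theorem. -/
theorem pair {S : Set ℕ} {q : ℕ} {μ ν : Measure T} [IsProbabilityMeasure μ]
    [IsProbabilityMeasure ν] (hμ : ∀ s ∈ S, Inv s μ) (hν : Inv q ν) :
    ∃ M : Measure T, IsProbabilityMeasure M ∧ (∀ s ∈ S, Inv s M) ∧ Inv q M ∧
      ∀ θ : Measure T, θ ≪ μ → θ ≪ ν → θ ≪ M := by
  set lam : ℕ → ProbabilityMeasure T := fun J => ⟨avg q μ J, inferInstance⟩ with hlam
  obtain ⟨F, hF, hFt, M, hM⟩ : ∃ F : Filter ℕ, F.NeBot ∧ F ≤ atTop ∧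
      ∃ M : ProbabilityMeasure T, Tendsto lam F (𝓝 M) := by
    refine ⟨(hyperfilter ℕ : Filter ℕ), inferInstance, Nat.hyperfilter_le_atTop, ?_⟩
    exact ⟨_, (Ultrafilter.map lam (hyperfilter ℕ)).le_nhds_lim⟩
  have hMq : Inv q (M : Measure T) := by
    refine inv_of_lim hM fun f => ?_
    have e : ∀ J : ℕ, ‖∫ x, f (q • x) ∂(lam J : Measure T) - ∫ x, f x ∂(lam J : Measure T)‖ ≤
        (2 * ‖f‖) * ((J : ℝ) + 1)⁻¹ := by
      intro J
      show ‖∫ x, f (q • x) ∂(avg q μ J) - ∫ x, f x ∂(avg q μ J)‖ ≤ _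
      have h1 := integral_avg q μ J (f.compContinuous ⟨_, cont q⟩)
      have h2 : ∀ x : T, (f.compContinuous ⟨_, cont q⟩) x = f (q • x) := fun x => rfl
      simp_rw [h2] at h1
      rw [h1, integral_avg, ← mul_sub, ← Finset.sum_sub_distrib]
      have h3 : ∀ j : ℕ, ∫ x, f (q • (q ^ j) • x) ∂μ = ∫ x, f ((q ^ (j + 1)) • x) ∂μ := by
        intro j
        congr 1
        funext x
        rw [← mul_smul, pow_succ, mul_comm]
      simp_rw [h3]
      rw [Finset.sum_range_sub (fun j => ∫ x, f ((q ^ j) • x) ∂μ)]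
      have h4 : ∀ j : ℕ, ‖∫ x, f ((q ^ j) • x) ∂μ‖ ≤ ‖f‖ := by
        intro j
        have := norm_integral_le_of_norm_le_const (μ := μ) (f := fun x : T => f ((q ^ j) • x))
          (C := ‖f‖) (Eventually.of_forall fun x => f.norm_coe_le_norm _)
        simpa using this
      rw [norm_mul, mul_comm]
      have h5 : ‖((J : ℝ) + 1)⁻¹‖ = ((J : ℝ) + 1)⁻¹ := by
        rw [Real.norm_of_nonneg (by positivity)]
      rw [h5]
      refine mul_le_mul_of_nonneg_right ?_ (by positivity)
      refine (norm_sub_le _ _).trans ?_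
      have := h4 (J + 1)
      have := h4 0
      linarith
    have t : Tendsto (fun J : ℕ => (2 * ‖f‖) * ((J : ℝ) + 1)⁻¹) atTop (𝓝 0) := by
      have h6 : Tendsto (fun n : ℕ => (n : ℝ) + 1) atTop atTop :=
        tendsto_atTop_add_const_right _ _ tendsto_natCast_atTop_atTop
      simpa using (tendsto_inv_atTop_zero.comp h6).const_mul (2 * ‖f‖)
    exact squeeze_zero_norm e (t.mono_left hFt)
  refine ⟨M, inferInstance, ?_, hMq, fun θ h1 h2 => common hν (fun J => rfl) hM hMq h1 h2⟩
  · intro s hs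
    refine inv_of_lim hM fun f => ?_
    have e : ∀ J : ℕ, ∫ x, f (s • x) ∂(lam J : Measure T) - ∫ x, f x ∂(lam J : Measure T) = 0 := by
      intro J
      have h1 := avg_inv (q := q) (hμ s hs) J
      have h2 : ∫ x, f x ∂((avg q μ J).map fun x : T => s • x) = ∫ x, f (s • x) ∂(avg q μ J) :=
        integral_map (meas s).aemeasurable f.continuous.aestronglyMeasurable
      rw [h1.map_eq] at h2
      show ∫ x, f (s • x) ∂(avg q μ J) - ∫ x, f x ∂(avg q μ J) = 0
      rw [← h2, sub_self]
    simp_rw [e]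
    exact tendsto_const_nhds
end Pool.Agent.X125.CP
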