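import Pool.Agent.X125.CP.Fam

/-!
Small balls for measures invariant under several multiplications.
-/

set_option autoImplicit false

open MeasureTheory Filter Topology Metric
open scoped ENNReal

namespace Pool.Agent.X125.CP

lemma Inv.one (M : Measure T) : Inv 1 M := by
  have e : (fun x : T => 1 • x) = id := by
    funext x; simp
  unfold Inv
  rw [e]
  exact MeasurePreserving.id M

lemma Inv.mul {m n : ℕ} {M : Measure T} (hm : Inv m M) (hn : Inv n M) : Inv (m * n) M := by
  have e : (fun x : T => (m * n) • x) = (fun x : T => m • x) ∘ fun x : T => n • x := by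
    funext x
    simp only [Function.comp]
    rw [mul_smul]
  unfold Inv
  rw [e]
  exact hm.comp hn

lemma Inv.prod {k : ℕ} {q : Fin k → ℕ} {M : Measure T} (h : ∀ i, Inv (q i) M) (a : Fin k → ℕ) :
    Inv (∏ i, q i ^ a i) M := by
  have key : ∀ s : Finset (Fin k), Inv (∏ i ∈ s, q i ^ a i) M := by
    intro s
    induction s using Finset.induction_on with
    | empty => simpa using Inv.one M
    | insert i s hi ih =>
      rw [Finset.prod_insert hi]
      exact ((h i).pow (a i)).mul ih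
  exact key _

/-- multiplicative independence -/
def MI {k : ℕ} (q : Fin k → ℕ) : Prop :=
  ∀ a b : Fin k → ℕ, ∏ i, q i ^ a i = ∏ i, q i ^ b i → a = b

lemma MI.pow {k : ℕ} {q : Fin k → ℕ} (h : MI q) {r : Fin k → ℕ} (hr : ∀ i, 1 ≤ r i) :
    MI fun i => q i ^ r i := by
  intro a b hab
  have h1 : (fun i => r i * a i) = fun i => r i * b i := by
    apply h
    calc ∏ i, q i ^ (r i * a i) = ∏ i, (q i ^ r i) ^ a i :=
          Finset.prod_congr rfl fun i _ => pow_mul _ _ _
      _ = ∏ i, (q i ^ r i) ^ b i := hab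
      _ = ∏ i, q i ^ (r i * b i) := Finset.prod_congr rfl fun i _ => (pow_mul _ _ _).symm
  funext i
  exact Nat.eq_of_mul_eq_mul_left (hr i) (congrFun h1 i)

lemma inj_pq {p q : ℕ} (hp : 2 ≤ p) (hq : 2 ≤ q)
    (hpq : Irrational (Real.log p / Real.log q)) {i j k l : ℕ}
    (h : p ^ i * q ^ j = p ^ k * q ^ l) : i = k ∧ j = l := by
  have hlp : 0 < Real.log p := Real.log_pos (by exact_mod_cast (by omega : 1 < p))
  have hlq : 0 < Real.log q := Real.log_pos (by exact_mod_cast (by omega : 1 < q))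
  have hp0 : (p : ℝ) ≠ 0 := by positivity
  have hq0 : (q : ℝ) ≠ 0 := by positivity
  have h1 : (i : ℝ) * Real.log p + j * Real.log q = k * Real.log p + l * Real.log q := by
    have h2 : ((p : ℝ) ^ i * (q : ℝ) ^ j) = (p : ℝ) ^ k * (q : ℝ) ^ l := by exact_mod_cast h
    have h3 := congrArg Real.log h2
    rwa [Real.log_mul (by positivity) (by positivity), Real.log_mul (by positivity) (by positivity),
      Real.log_pow, Real.log_pow, Real.log_pow, Real.log_pow] at h3
  by_cases hik : i = k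
  · subst hik
    refine ⟨rfl, ?_⟩
    have : (j : ℝ) * Real.log q = l * Real.log q := by linarith
    exact_mod_cast mul_right_cancel₀ hlq.ne' this
  · exfalso
    have hne : ((i : ℝ) - k) ≠ 0 := by
      intro h0
      apply hik
      exact_mod_cast sub_eq_zero.1 h0
    apply hpq
    refine ⟨((l : ℚ) - j) / ((i : ℚ) - k), ?_⟩
    push_cast
    rw [div_eq_div_iff hne hlq.ne']
    linarith

/-- many distinct multipliers up to `Q` make small balls about points without small multiples -/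
lemma ball_card {ι : Type*} (s : Finset ι) (n : ι → ℕ) {Q : ℝ}
    (hinj : Set.InjOn n s) (h1 : ∀ a ∈ s, 1 ≤ n a) (hQ : ∀ a ∈ s, (n a : ℝ) ≤ Q)
    {μ : Measure T} [IsProbabilityMeasure μ] (hμ : ∀ a ∈ s, Inv (n a) μ) {x : T} {r : ℝ}
    (hr : 0 < r)
    (h : ∀ d : ℕ, 1 ≤ d → (d : ℝ) < Q → 2 * Q * r ≤ ‖d • x‖) :
    (s.card : ℝ) * μ.real (ball x r) ≤ 1 := by
  by_contra hcon
  rw [not_le] at hcon
  have hsum : μ Set.univ < ∑ a ∈ s, μ ((fun z : T => n a • z) ⁻¹' ball x r) := by
    have h1 : ∀ a ∈ s, μ ((fun z : T => n a • z) ⁻¹' ball x r) = μ (ball x r) := by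
      intro a ha
      exact (hμ a ha).measure_preimage measurableSet_ball.nullMeasurableSet
    rw [Finset.sum_congr rfl h1, Finset.sum_const, measure_univ, nsmul_eq_mul]
    have h2 : ((s.card : ENNReal) * μ (ball x r)).toReal =
        (s.card : ℝ) * μ.real (ball x r) := by
      rw [ENNReal.toReal_mul]
      simp [Measure.real]
    have h3 : (s.card : ENNReal) * μ (ball x r) ≠ ⊤ :=
      ENNReal.mul_ne_top (ENNReal.natCast_ne_top _) (measure_ne_top _ _)
    rw [← ENNReal.ofReal_toReal h3, h2, ← ENNReal.ofReal_one]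
    exact (ENNReal.ofReal_lt_ofReal_iff (by linarith)).2 hcon
  obtain ⟨a, ha, b, hb, hab, z, hza, hzb⟩ :=
    exists_nonempty_inter_of_measure_univ_lt_sum_measure μ
      (fun a _ => (((continuous_nsmul (n a)).measurable measurableSet_ball).nullMeasurableSet)) hsum
  have hne : n a ≠ n b := fun he => hab (hinj ha hb he)
  wlog hlt : n a < n b generalizing a b
  · exact this b hb a ha hab.symm hzb hza hne.symm (lt_of_le_of_ne (not_lt.1 hlt) hne.symm)
  simp only [Set.mem_preimage, mem_ball, dist_eq_norm] at hza hzb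
  have hmQ := hQ a ha
  have hnQ := hQ b hb
  have hm1 := h1 a ha
  generalize n a = m at *
  generalize n b = n' at *
  obtain ⟨d, rfl⟩ := Nat.exists_eq_add_of_lt hlt
  obtain ⟨e, he, hne⟩ : ∃ e : ℕ, 1 ≤ e ∧ m + d + 1 = m + e := ⟨d + 1, by omega, by omega⟩
  rw [hne] at hnQ hzb
  push_cast at hnQ
  have hm1' : (1 : ℝ) ≤ m := by exact_mod_cast hm1
  have he1 : (1 : ℝ) ≤ e := by exact_mod_cast he
  have h4 := h e he (by linarith)
  have h5 : e • x = e • (x - m • z) + m • ((m + e) • z - m • z) := by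
    rw [add_smul m e z, add_sub_cancel_left, smul_sub, smul_smul, smul_smul, mul_comm m e]
    abel
  have h6 : ‖e • (x - m • z)‖ ≤ e * ‖x - m • z‖ := norm_nsmul_le
  have h7 : ‖m • ((m + e) • z - m • z)‖ ≤ m * ‖(m + e) • z - m • z‖ := norm_nsmul_le
  have h8 : ‖(m + e) • z - m • z‖ < 2 * r := by
    calc ‖(m + e) • z - m • z‖ = ‖((m + e) • z - x) - (m • z - x)‖ := by congr 1; abel
      _ ≤ ‖(m + e) • z - x‖ + ‖m • z - x‖ := norm_sub_le _ _
      _ < 2 * r := by linarith
  have h9 : ‖x - m • z‖ < r := by rwa [norm_sub_rev]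
  have h10 : ‖e • x‖ < 2 * Q * r := by
    calc ‖e • x‖ ≤ ‖e • (x - m • z)‖ + ‖m • ((m + e) • z - m • z)‖ := by
          rw [h5]; exact norm_add_le _ _
      _ ≤ e * ‖x - m • z‖ + m * ‖(m + e) • z - m • z‖ := add_le_add h6 h7
      _ < e * r + m * (2 * r) := by
          have h11 : (e : ℝ) * ‖x - m • z‖ < e * r := mul_lt_mul_of_pos_left h9 (by linarith)
          have h12 : (m : ℝ) * ‖(m + e) • z - m • z‖ ≤ m * (2 * r) :=
            mul_le_mul_of_nonneg_left h8.le (by linarith)
          linarith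
      _ = (m + (m + e)) * r := by ring
      _ ≤ 2 * Q * r := mul_le_mul_of_nonneg_right (by linarith) hr.le
  linarith

lemma exists_scale {x : ℝ} (hx : Irrational x) (Q₀ : ℕ) : ∃ Q : ℕ, Q₀ ≤ Q ∧ 2 ≤ Q ∧
    ∀ d : ℕ, 1 ≤ d → d < Q → 1 / (2 * (Q : ℝ)) ≤ ‖d • (x : UnitAddCircle)‖ := by
  by_contra hcon
  push Not at hcon
  set N := max Q₀ 2 with hN
  have hN2 : 2 ≤ N := le_max_right _ _
  have key : ∀ Q : ℕ, N ≤ Q → ∃ d : ℕ, ∃ a : ℤ, 1 ≤ d ∧ d < Q ∧
      |(d : ℝ) * x - a| < 1 / (2 * (Q : ℝ)) := by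
    intro Q hQ
    obtain ⟨d, h1, h2, h3⟩ := hcon Q (le_trans (le_max_left _ _) hQ) (hN2.trans hQ)
    refine ⟨d, round ((d : ℝ) * x), h1, h2, ?_⟩
    have h4 : (d • (x : UnitAddCircle)) = ((d * x : ℝ) : UnitAddCircle) := by
      rw [← AddCircle.coe_nsmul, nsmul_eq_mul]
    rw [h4, UnitAddCircle.norm_eq] at h3
    exact h3
  choose! d a hd1 hd2 hda using key
  have step : ∀ Q : ℕ, N ≤ Q → (d Q : ℤ) * a (Q + 1) = (d (Q + 1) : ℤ) * a Q := by
    intro Q hQ
    have hQ0 : (0 : ℝ) < Q := by exact_mod_cast (by omega : 0 < Q)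
    have e1 := hda Q hQ
    have e2 := hda (Q + 1) (by omega)
    have f1 := hd2 Q hQ
    have f2 := hd2 (Q + 1) (by omega)
    have g1 := hd1 Q hQ
    have g2 := hd1 (Q + 1) (by omega)
    have f1' : (d Q : ℝ) ≤ Q - 1 := by
      have : d Q + 1 ≤ Q := f1
      have h : ((d Q + 1 : ℕ) : ℝ) ≤ Q := by exact_mod_cast this
      push_cast at h
      linarith
    have f2' : (d (Q + 1) : ℝ) ≤ Q := by exact_mod_cast (by omega : d (Q + 1) ≤ Q)
    have g1' : (1 : ℝ) ≤ d Q := by exact_mod_cast g1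
    have g2' : (1 : ℝ) ≤ d (Q + 1) := by exact_mod_cast g2
    have habs : |((d Q : ℝ) * a (Q + 1) - d (Q + 1) * a Q)| < 1 := by
      have h1 : ((d Q : ℝ) * a (Q + 1) - d (Q + 1) * a Q) =
          d (Q + 1) * ((d Q : ℝ) * x - a Q) - d Q * ((d (Q + 1) : ℝ) * x - a (Q + 1)) := by ring
      rw [h1]
      refine lt_of_le_of_lt (abs_sub _ _) ?_
      rw [abs_mul, abs_mul, abs_of_pos (by linarith : (0 : ℝ) < d (Q + 1)),
        abs_of_pos (by linarith : (0 : ℝ) < d Q)]
      have h2 : (d (Q + 1) : ℝ) * |(d Q : ℝ) * x - a Q| < Q * (1 / (2 * (Q : ℝ))) :=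
        mul_lt_mul' f2' e1 (abs_nonneg _) hQ0
      have h3 : (d Q : ℝ) * |(d (Q + 1) : ℝ) * x - a (Q + 1)| ≤
          Q * (1 / (2 * ((Q : ℝ) + 1))) := by
        refine mul_le_mul (by linarith) ?_ (abs_nonneg _) hQ0.le
        have := e2.le
        push_cast at this
        exact this
      have h4 : (Q : ℝ) * (1 / (2 * (Q : ℝ))) = 1 / 2 := by field_simp
      have h5 : (Q : ℝ) * (1 / (2 * ((Q : ℝ) + 1))) ≤ 1 / 2 := by
        rw [mul_one_div, div_le_div_iff₀ (by positivity) (by norm_num)]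
        linarith
      linarith
    have h6 : |((d Q : ℤ) * a (Q + 1) - (d (Q + 1) : ℤ) * a Q)| < 1 := by
      have h7 : ((|((d Q : ℤ) * a (Q + 1) - (d (Q + 1) : ℤ) * a Q)| : ℤ) : ℝ) < 1 := by
        push_cast
        exact habs
      exact_mod_cast h7
    have h8 := Int.abs_lt_one_iff.1 h6
    linarith
  -- the quotient is constant
  set ρ : ℚ := (a N : ℚ) / d N with hρ
  have hconst : ∀ k : ℕ, (a (N + k) : ℚ) = ρ * d (N + k) := by
    intro k
    induction k with
    | zero =>
      have : (d N : ℚ) ≠ 0 := by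
        have := hd1 N le_rfl
        positivity
      simp only [add_zero, hρ]
      field_simp
    | succ k ih =>
      have h := step (N + k) (by omega)
      have h' : (d (N + k) : ℚ) * a (N + k + 1) = (d (N + k + 1) : ℚ) * a (N + k) := by
        exact_mod_cast h
      rw [ih] at h'
      have h0 : (d (N + k) : ℚ) ≠ 0 := by
        have := hd1 (N + k) (by omega)
        positivity
      have e : N + (k + 1) = N + k + 1 := by ring
      rw [e]
      apply mul_left_cancel₀ h0
      rw [h']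
      ring
  have hlim : ∀ k : ℕ, |x - ρ| ≤ 1 / (2 * ((N : ℝ) + k)) := by
    intro k
    have h := hda (N + k) (by omega)
    have hc : (a (N + k) : ℝ) = ρ * d (N + k) := by exact_mod_cast hconst k
    have g : (1 : ℝ) ≤ d (N + k) := by exact_mod_cast hd1 (N + k) (by omega)
    rw [hc] at h
    have h1 : (d (N + k) : ℝ) * x - ρ * d (N + k) = d (N + k) * (x - ρ) := by ring
    rw [h1, abs_mul, abs_of_pos (by linarith : (0 : ℝ) < d (N + k))] at h
    push_cast at h
    calc |x - ρ| ≤ d (N + k) * |x - ρ| := by nlinarith [abs_nonneg (x - (ρ : ℝ))]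
      _ ≤ _ := h.le
  have hzero : |x - ρ| = 0 := by
    by_contra hne
    have hpos : 0 < |x - (ρ : ℝ)| := lt_of_le_of_ne (abs_nonneg _) (Ne.symm hne)
    obtain ⟨k, hk⟩ := exists_nat_gt (1 / |x - (ρ : ℝ)|)
    have h1 := hlim k
    have hN0 : (0 : ℝ) < N := by exact_mod_cast (by omega : 0 < N)
    have h2 : 1 / (2 * ((N : ℝ) + k)) < |x - (ρ : ℝ)| := by
      rw [div_lt_iff₀ (by positivity)]
      rw [div_lt_iff₀ hpos] at hk
      nlinarith
    linarith
  rw [abs_eq_zero, sub_eq_zero] at hzero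
  exact hx ⟨ρ, hzero.symm⟩


lemma irr_of_not_tor {t : ℝ} (h : (t : T) ∉ Tor) : Irrational t := by
  rintro ⟨ρ, rfl⟩
  apply h
  refine ⟨ρ.den, ρ.den_pos, ?_⟩
  have e : ρ.den • (((ρ : ℝ)) : T) = ((ρ.den • (ρ : ℝ) : ℝ) : T) := rfl
  rw [e, AddCircle.coe_eq_zero_iff]
  refine ⟨ρ.num, ?_⟩
  rw [zsmul_eq_mul, mul_one, nsmul_eq_mul]
  have := Rat.den_mul_eq_num ρ
  exact_mod_cast this.symm

/-- Small balls about irrational points. -/
theorem small_ball {k : ℕ} (q : Fin k → ℕ) (hk : 1 ≤ k) (hq : ∀ i, 2 ≤ q i) (hMI : MI q) :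
    ∃ C : ℝ, 0 < C ∧ ∀ x : T, x ∉ Tor → ∀ r₀ : ℝ, 0 < r₀ → ∃ r : ℝ, 0 < r ∧ r < r₀ ∧ r < 1 / 64 ∧
      ∀ M : Measure T, IsProbabilityMeasure M → (∀ i, Inv (q i) M) →
        M.real (closedBall x r) ≤ C / |Real.log r| ^ k := by
  set B : ℕ := ∏ i, q i with hB
  have hB2 : 2 ≤ B := by
    have h1 : q ⟨0, hk⟩ ∣ B := Finset.dvd_prod_of_mem _ (Finset.mem_univ _)
    have h2 : 0 < B := Finset.prod_pos fun i _ => by have := hq i; omega
    exact (hq _).trans (Nat.le_of_dvd h2 h1)
  have hlB : 0 < Real.log B := Real.log_pos (by exact_mod_cast (by omega : 1 < B))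
  refine ⟨(4 * Real.log B) ^ k, by positivity, fun x hx r₀ hr₀ => ?_⟩
  induction x using QuotientAddGroup.induction_on with
  | H t =>
    have ht := irr_of_not_tor hx
    obtain ⟨Q₀, hQ₀⟩ := exists_nat_gt (1 / r₀)
    obtain ⟨Q, hQ1, hQ2, hQ⟩ := exists_scale ht (max Q₀ 3)
    have hQ3 : (3 : ℝ) ≤ Q := by exact_mod_cast (le_max_right Q₀ 3).trans hQ1
    have hQQ : (Q₀ : ℝ) ≤ Q := by exact_mod_cast (le_max_left Q₀ 3).trans hQ1
    have hQ0 : (0 : ℝ) < Q := by linarith
    have hlQ : 0 < Real.log Q := Real.log_pos (by linarith)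
    refine ⟨1 / (8 * (Q : ℝ) ^ 2), by positivity, ?_, ?_, fun M hM hinv => ?_⟩
    · rw [div_lt_iff₀ hr₀] at hQ₀
      rw [div_lt_iff₀ (by positivity)]
      nlinarith
    · rw [div_lt_div_iff₀ (by positivity) (by norm_num)]
      nlinarith
    · set L := Nat.log B Q with hL
      have hL1 : B ^ L ≤ Q := Nat.pow_log_le_self B (by omega)
      have hL2 : Q < B ^ (L + 1) := Nat.lt_pow_succ_log_self (by omega) _
      set s : Finset (Fin k → ℕ) := Fintype.piFinset fun _ => Finset.range (L + 1) with hs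
      have hcard : s.card = (L + 1) ^ k := by
        rw [hs, Fintype.card_piFinset]
        simp
      have h1 := ball_card s (fun a => ∏ i, q i ^ a i) (Q := Q) (μ := M) (x := (t : T))
        (r := 1 / (4 * (Q : ℝ) ^ 2)) (fun a _ b _ h => hMI a b h)
        (fun a _ => Nat.one_le_iff_ne_zero.2
          (Finset.prod_pos (fun i _ => Nat.pow_pos (by have := hq i; omega))).ne')
        (fun a ha => by
          have h2 : ∏ i, q i ^ a i ≤ B ^ L := by
            rw [hB, ← Finset.prod_pow]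
            refine Finset.prod_le_prod' fun i _ => ?_
            refine Nat.pow_le_pow_right (by have := hq i; omega) ?_
            rw [hs, Fintype.mem_piFinset] at ha
            have := Finset.mem_range.1 (ha i)
            omega
          exact_mod_cast h2.trans hL1)
        (fun a _ => Inv.prod hinv a) (by positivity) (by
          intro d hd hdQ
          refine le_trans (le_of_eq ?_) (hQ d hd (by exact_mod_cast hdQ))
          field_simp
          ring)
      have h2 : M.real (closedBall (t : T) (1 / (8 * (Q : ℝ) ^ 2))) ≤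
          M.real (ball (t : T) (1 / (4 * (Q : ℝ) ^ 2))) := by
        refine measureReal_mono (closedBall_subset_ball ?_) (measure_ne_top _ _)
        rw [div_lt_div_iff₀ (by positivity) (by positivity)]
        nlinarith [sq_nonneg (Q : ℝ), pow_pos hQ0 2]
      rw [hcard] at h1
      push_cast at h1
      have h3 : Real.log Q ≤ (L + 1) * Real.log B := by
        have h4 : (Q : ℝ) ≤ (B : ℝ) ^ (L + 1) := by exact_mod_cast hL2.le
        have h5 := Real.log_le_log hQ0 h4
        rw [Real.log_pow] at h5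
        push_cast at h5
        exact h5
      have h6 : |Real.log (1 / (8 * (Q : ℝ) ^ 2))| ≤ 4 * Real.log Q := by
        rw [one_div, Real.log_inv, abs_neg, Real.log_mul (by norm_num) (by positivity),
          Real.log_pow]
        have h7 : Real.log 8 ≤ 2 * Real.log Q := by
          have h8 : (8 : ℝ) ≤ (Q : ℝ) ^ 2 := by nlinarith
          have h9 := Real.log_le_log (by norm_num) h8
          rw [Real.log_pow] at h9
          push_cast at h9
          exact h9
        have h8 : 0 ≤ Real.log 8 := Real.log_nonneg (by norm_num)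
        push_cast
        rw [abs_of_nonneg (by positivity)]
        linarith
      have h7 : 0 < |Real.log (1 / (8 * (Q : ℝ) ^ 2))| := by
        rw [abs_pos, one_div, Real.log_inv, neg_ne_zero]
        have : (1 : ℝ) < 8 * (Q : ℝ) ^ 2 := by nlinarith
        exact (Real.log_pos this).ne'
      rw [le_div_iff₀ (by positivity)]
      refine le_trans ?_ (le_trans (mul_le_mul_of_nonneg_left h1
        (by positivity : (0 : ℝ) ≤ (4 * Real.log B) ^ k)) (by rw [mul_one]))
      have h8 : |Real.log (1 / (8 * (Q : ℝ) ^ 2))| ^ k ≤ (4 * Real.log B) ^ k * ((L : ℝ) + 1) ^ k := by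
        rw [← mul_pow]
        refine pow_le_pow_left₀ h7.le ?_ k
        linarith
      calc M.real (closedBall (t : T) (1 / (8 * (Q : ℝ) ^ 2))) *
            |Real.log (1 / (8 * (Q : ℝ) ^ 2))| ^ k ≤
            M.real (ball (t : T) (1 / (4 * (Q : ℝ) ^ 2))) *
              ((4 * Real.log B) ^ k * ((L : ℝ) + 1) ^ k) :=
            mul_le_mul h2 h8 (by positivity) measureReal_nonneg
        _ = _ := by ring

/-- **Finite rank.** -/
theorem finite_rank {p : ℕ} {μ : Measure T} [IsProbabilityMeasure μ]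
    (hμ : Ergodic (fun x : T => p • x) μ) (hat : ∀ x, μ {x} = 0) {A : ℝ} (hA : 0 ≤ A)
    (hlow : ∃ᶠ x in ae μ, ∃ c : ℝ, 0 < c ∧ ∀ᶠ r in 𝓝[>] (0 : ℝ),
      c * |Real.log r| ^ (-A) ≤ μ.real (closedBall x r))
    {k : ℕ} (q : Fin k → ℕ) (hq : ∀ i, 2 ≤ q i) (hMI : MI q)
    (hν : ∀ i, ∃ ν : Measure T, IsProbabilityMeasure ν ∧ Inv (q i) ν ∧ ¬ ν ⟂ₘ μ) : (k : ℝ) ≤ A := by
  rcases Nat.eq_zero_or_pos k with h0 | hk
  · rw [h0]; simpa using hA
  -- invariance under powers
  have hr : ∀ i, ∃ r : ℕ, 1 ≤ r ∧ Inv (q i ^ r) μ := by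
    intro i
    obtain ⟨ν, h1, h2, h3⟩ := hν i
    obtain ⟨r, h4, h4', h5⟩ := dichotomy h2 (fun x => smul_comm (q i) p x) hμ h3
    refine ⟨r, h4, ?_⟩
    have e : (fun x : T => q i • x)^[r] = fun x : T => (q i ^ r) • x := by
      clear h4 h4' h5
      induction r with
      | zero => funext x; simp
      | succ r ih =>
        funext x
        rw [Function.iterate_succ_apply', ih, pow_succ', mul_smul]
    rwa [e] at h5
  choose r hr1 hr2 using hr
  obtain ⟨C, hC, hball⟩ := small_ball (fun i => q i ^ r i) hk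
    (fun i => (hq i).trans (Nat.le_self_pow (by have := hr1 i; omega) _)) (hMI.pow hr1)
  -- a good point
  have hTor : ∀ᵐ x ∂μ, x ∉ Tor := by
    have : NullSingletonClass μ := ⟨hat⟩
    rw [ae_iff]
    simp only [not_not]
    exact Tor_countable.measure_zero μ
  obtain ⟨x, ⟨c, hc, hx⟩, hxT⟩ := (hlow.and_eventually hTor).exists
  by_contra hcon
  rw [not_le] at hcon
  -- the ratio tends to infinity
  have hlim : Tendsto (fun r : ℝ => c * |Real.log r| ^ ((k : ℝ) - A)) (𝓝[>] 0) atTop := by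
    have h1 : Tendsto (fun r : ℝ => |Real.log r|) (𝓝[>] 0) atTop :=
      tendsto_abs_atBot_atTop.comp Real.tendsto_log_nhdsGT_zero
    exact ((tendsto_rpow_atTop (by linarith)).comp h1).const_mul_atTop hc
  have hev := (hx.and (hlim.eventually_gt_atTop C))
  rw [eventually_nhdsWithin_iff, Metric.eventually_nhds_iff] at hev
  obtain ⟨r₀, hr₀, hev⟩ := hev
  obtain ⟨s, hs0, hs1, hs2, hs3⟩ := hball x hxT r₀ hr₀
  have h1 := hev (by rw [Real.dist_eq, sub_zero, abs_of_pos hs0]; exact hs1) hs0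
  have h2 := hs3 μ inferInstance hr2
  have hlog : 0 < |Real.log s| := by
    rw [abs_pos]
    exact (Real.log_neg hs0 (by linarith)).ne
  have h3 := h1.1.trans h2
  rw [le_div_iff₀ (by positivity)] at h3
  have h4 : c * |Real.log s| ^ (-A) * |Real.log s| ^ k = c * |Real.log s| ^ ((k : ℝ) - A) := by
    rw [mul_assoc, ← Real.rpow_natCast, ← Real.rpow_add hlog]
    congr 2
    ring
  rw [h4] at h3
  exact absurd h1.2 (not_lt.2 h3)

end Pool.Agent.X125.CP
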